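import Mathlib

namespace Pool.Agent.Results.MP_9c4245_co.Unbounded

/-- `G` is a `k`-threshold graph: there are thresholds `θ 0 < ... < θ (k-1)` and ranks `r`
such that distinct `v, w` are adjacent iff the number of `i` with `θ i ≤ r v + r w` is odd. -/
def IsMultithreshold {V : Type*} (k : ℕ) (G : SimpleGraph V) : Prop :=
  ∃ (θ : Fin k → ℝ) (r : V → ℝ), StrictMono θ ∧
    ∀ v w : V, v ≠ w →
      (G.Adj v w ↔ Odd (Finset.univ.filter (fun i : Fin k => θ i ≤ r v + r w)).card)

/-- The edge set of `G` is the union of the edge sets of `k` threshold graphs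
(`1`-threshold graphs) on the same vertex set. -/
def IsThresholdUnion {V : Type*} (k : ℕ) (G : SimpleGraph V) : Prop :=
  ∃ T : Fin k → SimpleGraph V, (∀ i, IsMultithreshold 1 (T i)) ∧
    ∀ v w : V, G.Adj v w ↔ ∃ i, (T i).Adj v w

/-- vertex set: grid points and two families of test points -/
abbrev Vtx (m : ℕ) : Type := (Fin (m + 1) × Fin (m + 1)) ⊕ (Fin m ⊕ Fin m)

/-- first coordinate weight, doubled -/
def wa (m : ℕ) : Vtx m → ℤ
  | Sum.inl p => 2 * (p.1 : ℤ)
  | Sum.inr (Sum.inl i) => -(2 * (i : ℤ) + 1)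
  | Sum.inr (Sum.inr _) => 0

/-- second coordinate weight, doubled -/
def wb (m : ℕ) : Vtx m → ℤ
  | Sum.inl p => 2 * (p.2 : ℤ)
  | Sum.inr (Sum.inl _) => 0
  | Sum.inr (Sum.inr j) => -(2 * (j : ℤ) + 1)

/-- the graph: an intersection of two threshold graphs -/
def Gr (m : ℕ) : SimpleGraph (Vtx m) where
  Adj v w := v ≠ w ∧ 0 ≤ wa m v + wa m w ∧ 0 ≤ wb m v + wb m w
  symm := ⟨fun v w h => ⟨h.1.symm, by rw [add_comm]; exact h.2.1, by rw [add_comm]; exact h.2.2⟩⟩
  loopless := ⟨fun v h => h.1 rfl⟩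

/-- complement-type threshold graph of an integer weight -/
def Tg {V : Type*} (f : V → ℤ) : SimpleGraph V where
  Adj v w := v ≠ w ∧ f v + f w < 0
  symm := ⟨fun v w h => ⟨h.1.symm, by rw [add_comm]; exact h.2⟩⟩
  loopless := ⟨fun v h => h.1 rfl⟩

lemma Tg_threshold {V : Type*} (f : V → ℤ) : IsMultithreshold 1 (Tg f) := by
  refine ⟨fun _ => 1, fun v => -(f v : ℝ), ?_, ?_⟩
  · intro a b h
    exact absurd h (by simp [Subsingleton.elim a b])
  · intro v w hvw
    have h1 : (Tg f).Adj v w ↔ f v + f w < 0 := by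
      simp [Tg, hvw]
    rw [h1]
    by_cases h : f v + f w < 0
    · have h2 : (1 : ℝ) ≤ -(f v : ℝ) + -(f w : ℝ) := by
        have h3 : f v + f w ≤ -1 := by omega
        have h4 : ((f v + f w : ℤ) : ℝ) ≤ ((-1 : ℤ) : ℝ) := by exact_mod_cast h3
        push_cast at h4
        linarith
      simp [h, h2]
    · have h2 : ¬ (1 : ℝ) ≤ -(f v : ℝ) + -(f w : ℝ) := by
        have h3 : 0 ≤ f v + f w := by omega
        have h4 : ((0 : ℤ) : ℝ) ≤ ((f v + f w : ℤ) : ℝ) := by exact_mod_cast h3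
        push_cast at h4
        intro h5
        linarith
      simp [h, h2]

lemma compl_union (m : ℕ) : IsThresholdUnion 2 (Gr m)ᶜ := by
  refine ⟨![Tg (wa m), Tg (wb m)], ?_, ?_⟩
  · intro i
    fin_cases i
    · exact Tg_threshold _
    · exact Tg_threshold _
  · intro v w
    rw [SimpleGraph.compl_adj]
    constructor
    · rintro ⟨hne, h⟩
      by_cases ha : 0 ≤ wa m v + wa m w
      · refine ⟨1, ?_⟩
        refine ⟨hne, ?_⟩
        by_contra hb
        exact h ⟨hne, ha, by omega⟩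
      · refine ⟨0, ?_⟩
        exact ⟨hne, by omega⟩
    · rintro ⟨i, hi⟩
      fin_cases i
      · have hi' : v ≠ w ∧ wa m v + wa m w < 0 := hi
        refine ⟨hi'.1, ?_⟩
        intro h
        have := h.2.1
        omega
      · have hi' : v ≠ w ∧ wb m v + wb m w < 0 := hi
        refine ⟨hi'.1, ?_⟩
        intro h
        have := h.2.2
        omega

lemma adj_h (m : ℕ) (p : Fin (m + 1) × Fin (m + 1)) (i : Fin m) :
    (Gr m).Adj (Sum.inl p) (Sum.inr (Sum.inl i)) ↔ (i : ℕ) < (p.1 : ℕ) := by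
  simp only [Gr, wa, wb]
  constructor
  · rintro ⟨_, h1, _⟩; omega
  · intro h; exact ⟨by simp, by omega, by omega⟩

lemma adj_v (m : ℕ) (p : Fin (m + 1) × Fin (m + 1)) (j : Fin m) :
    (Gr m).Adj (Sum.inl p) (Sum.inr (Sum.inr j)) ↔ (j : ℕ) < (p.2 : ℕ) := by
  simp only [Gr, wa, wb]
  constructor
  · rintro ⟨_, _, h1⟩; omega
  · intro h; exact ⟨by simp, by omega, by omega⟩

lemma not_union_lt (m : ℕ) (hm : 1 ≤ m) (k : ℕ) (hk : IsThresholdUnion k (Gr m)ᶜ) : 2 ≤ k := by
  by_contra hlt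
  obtain ⟨T, hT, hE⟩ := hk
  set p1 : Vtx m := Sum.inl (Fin.last m, 0) with hp1
  set p2 : Vtx m := Sum.inl (0, Fin.last m) with hp2
  set h0 : Vtx m := Sum.inr (Sum.inl ⟨0, hm⟩) with hh0
  set v0 : Vtx m := Sum.inr (Sum.inr ⟨0, hm⟩) with hv0
  have e1 : (Gr m).Adj p1 h0 := by rw [hp1, hh0, adj_h]; show 0 < m; omega
  have e2 : (Gr m).Adj p2 v0 := by rw [hp2, hv0, adj_v]; show 0 < m; omega
  have e3 : ¬ (Gr m).Adj p1 v0 := by rw [hp1, hv0, adj_v]; simp
  have e4 : ¬ (Gr m).Adj p2 h0 := by rw [hp2, hh0, adj_h]; simp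
  have n1 : p1 ≠ v0 := by simp [hp1, hv0]
  have n2 : p2 ≠ h0 := by simp [hp2, hh0]
  have n3 : p1 ≠ h0 := by simp [hp1, hh0]
  have n4 : p2 ≠ v0 := by simp [hp2, hv0]
  have c3 : (Gr m)ᶜ.Adj p1 v0 := by rw [SimpleGraph.compl_adj]; exact ⟨n1, e3⟩
  have c4 : (Gr m)ᶜ.Adj p2 h0 := by rw [SimpleGraph.compl_adj]; exact ⟨n2, e4⟩
  have c1 : ¬ (Gr m)ᶜ.Adj p1 h0 := by rw [SimpleGraph.compl_adj]; exact fun h => h.2 e1
  have c2 : ¬ (Gr m)ᶜ.Adj p2 v0 := by rw [SimpleGraph.compl_adj]; exact fun h => h.2 e2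
  obtain ⟨i, hi⟩ := (hE _ _).1 c3
  obtain ⟨j, hj⟩ := (hE _ _).1 c4
  have hij : i = j := by
    have h1 := i.2
    have h2 := j.2
    apply Fin.ext
    omega
  subst hij
  have d1 : ¬ (T i).Adj p1 h0 := fun h => c1 ((hE _ _).2 ⟨i, h⟩)
  have d2 : ¬ (T i).Adj p2 v0 := fun h => c2 ((hE _ _).2 ⟨i, h⟩)
  obtain ⟨θ, r, -, hr⟩ := hT i
  have key : ∀ v w : Vtx m, v ≠ w → ((T i).Adj v w ↔ θ 0 ≤ r v + r w) := by
    intro v w hvw
    rw [hr v w hvw]
    by_cases h : θ 0 ≤ r v + r w
    · have : (Finset.univ.filter (fun i : Fin 1 => θ i ≤ r v + r w)) = Finset.univ := by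
        ext a
        simp [Subsingleton.elim a 0, h]
      rw [this]; simp [h]
    · have : (Finset.univ.filter (fun i : Fin 1 => θ i ≤ r v + r w)) = ∅ := by
        ext a
        simp [Subsingleton.elim a 0, h]
      rw [this]; simp [h]
  rw [key _ _ n1] at hi
  rw [key _ _ n2] at hj
  rw [key _ _ n3] at d1
  rw [key _ _ n4] at d2
  linarith

lemma not_multithreshold (m k : ℕ) (hk : 2 * k ≤ m + 1) (hm : 1 ≤ m) :
    ¬ IsMultithreshold k (Gr m) := by
  rintro ⟨θ, r, -, hr⟩
  -- thresholds seen from the test points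
  let τ : (Fin m ⊕ Fin m) × Fin k → ℝ := fun q => θ q.2 - r (Sum.inr q.1)
  let S : Fin (m + 1) × Fin (m + 1) → Finset ((Fin m ⊕ Fin m) × Fin k) :=
    fun p => Finset.univ.filter (fun q => τ q ≤ r (Sum.inl p))
  have hS : ∀ p q, r (Sum.inl p) ≤ r (Sum.inl q) → S p ⊆ S q := by
    intro p q h x hx
    simp only [S, Finset.mem_filter, Finset.mem_univ, true_and] at hx ⊢
    exact hx.trans h
  have hSeq : ∀ p q, (S p).card = (S q).card → S p = S q := by
    intro p q h
    rcases le_total (r (Sum.inl p)) (r (Sum.inl q)) with h1 | h1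
    · exact Finset.eq_of_subset_of_card_le (hS _ _ h1) h.ge
    · exact (Finset.eq_of_subset_of_card_le (hS _ _ h1) h.le).symm
  -- the trace is determined by S
  have htr : ∀ (p : Fin (m + 1) × Fin (m + 1)) (y : Fin m ⊕ Fin m),
      ((Gr m).Adj (Sum.inl p) (Sum.inr y) ↔
        Odd ((Finset.univ : Finset (Fin k)).filter (fun i => (y, i) ∈ S p)).card) := by
    intro p y
    rw [hr _ _ (by simp)]
    have : (Finset.univ.filter (fun i : Fin k => θ i ≤ r (Sum.inl p) + r (Sum.inr y)))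
        = (Finset.univ.filter (fun i : Fin k => (y, i) ∈ S p)) := by
      ext i
      simp only [S, τ, Finset.mem_filter, Finset.mem_univ, true_and]
      constructor <;> intro h <;> linarith
    rw [this]
  have hinj : Function.Injective (fun p => (S p).card) := by
    intro p q h
    have h1 : S p = S q := hSeq p q h
    have h2 : ∀ y, ((Gr m).Adj (Sum.inl p) (Sum.inr y) ↔ (Gr m).Adj (Sum.inl q) (Sum.inr y)) := by
      intro y
      rw [htr, htr, h1]
    have h3 : ∀ i : Fin m, ((i : ℕ) < (p.1 : ℕ) ↔ (i : ℕ) < (q.1 : ℕ)) := by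
      intro i
      have := h2 (Sum.inl i)
      rwa [adj_h, adj_h] at this
    have h4 : ∀ i : Fin m, ((i : ℕ) < (p.2 : ℕ) ↔ (i : ℕ) < (q.2 : ℕ)) := by
      intro i
      have := h2 (Sum.inr i)
      rwa [adj_v, adj_v] at this
    have aux : ∀ a b : Fin (m + 1), (∀ i : Fin m, ((i : ℕ) < (a : ℕ) ↔ (i : ℕ) < (b : ℕ))) →
        a = b := by
      intro a b hab
      apply Fin.ext
      by_contra hne
      rcases lt_or_gt_of_ne hne with hlt | hlt
      · have hb := b.2
        have := (hab ⟨a, by omega⟩).2 hlt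
        simp at this
      · have ha := a.2
        have := (hab ⟨b, by omega⟩).1 hlt
        simp at this
    exact Prod.ext (aux _ _ h3) (aux _ _ h4)
  have hcard : ∀ p, (S p).card < 2 * m * k + 1 := by
    intro p
    have h1 : (S p).card ≤ (Finset.univ : Finset ((Fin m ⊕ Fin m) × Fin k)).card :=
      Finset.card_le_card (Finset.subset_univ _)
    simp only [Finset.card_univ, Fintype.card_prod, Fintype.card_sum, Fintype.card_fin] at h1
    have : (m + m) * k = 2 * m * k := by ring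
    omega
  have h5 : Fintype.card (Fin (m + 1) × Fin (m + 1)) ≤ Fintype.card (Fin (2 * m * k + 1)) := by
    apply Fintype.card_le_of_injective (fun p => (⟨(S p).card, hcard p⟩ : Fin (2 * m * k + 1)))
    intro p q h
    apply hinj
    simpa using h
  simp only [Fintype.card_prod, Fintype.card_fin] at h5
  nlinarith

/-- **Answer to the question: no, the threshold number is unbounded.** For every `C ≥ 1` there
is a finite graph `G`, with at most `4 (C + 1) ^ 2` vertices, such that the threshold dimension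
of the complement of `G` is exactly `2`, while `G` is not `k`-threshold for any `k ≤ C`
(that is, the threshold number of `G` exceeds `C`). -/
theorem result : ∀ C : ℕ, 1 ≤ C → ∃ (V : Type) (_ : Fintype V) (G : SimpleGraph V),
    Fintype.card V ≤ 4 * (C + 1) ^ 2 ∧
    IsLeast {k : ℕ | IsThresholdUnion k Gᶜ} 2 ∧ ∀ k ≤ C, ¬ IsMultithreshold k G := by
  intro C hC
  obtain ⟨m, hm⟩ : ∃ m, m + 1 = 2 * C := ⟨2 * C - 1, by omega⟩
  refine ⟨Vtx m, inferInstance, Gr m, ?_, ⟨compl_union m, ?_⟩, ?_⟩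
  · simp only [Fintype.card_sum, Fintype.card_prod, Fintype.card_fin]
    rw [hm]
    nlinarith
  · intro k hk
    exact not_union_lt m (by omega) k hk
  · intro k hk
    exact not_multithreshold m k (by omega) (by omega)

end Pool.Agent.Results.MP_9c4245_co.Unbounded
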